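import Pool.Agent.R256.HL3

set_option autoImplicit false

open MeasureTheory Set

namespace Pool.Agent.Results.MP_9d0787_an.EllipticConstant

/-- Admissible functions: `f` is twice differentiable on `(0,∞)` and `∫ x f² < ∞`,
`∫ x f''² < ∞`. -/
def Admissible (f : ℝ → ℝ) : Prop :=
  (∀ x > 0, DifferentiableAt ℝ f x) ∧ (∀ x > 0, DifferentiableAt ℝ (deriv f) x) ∧
    IntegrableOn (fun x => x * f x ^ 2) (Ioi 0) ∧
    IntegrableOn (fun x => x * deriv (deriv f) x ^ 2) (Ioi 0)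

/-- The complete elliptic integral of the first kind with modulus `k`. -/
noncomputable def ellK (k : ℝ) : ℝ :=
  ∫ θ in (0:ℝ)..(Real.pi / 2), 1 / Real.sqrt (1 - k ^ 2 * Real.sin θ ^ 2)

/-- The complete elliptic integral of the second kind with modulus `k`. -/
noncomputable def ellE (k : ℝ) : ℝ :=
  ∫ θ in (0:ℝ)..(Real.pi / 2), Real.sqrt (1 - k ^ 2 * Real.sin θ ^ 2)

/-- `C` is a constant in the inequality. -/
def IsConstant (C : ℝ) : Prop :=
  ∀ f : ℝ → ℝ, Admissible f →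
    (∫ x in Ioi 0, x * deriv f x ^ 2) ^ 2 ≤
      C * (∫ x in Ioi 0, x * f x ^ 2) * ∫ x in Ioi 0, x * deriv (deriv f) x ^ 2

open Pool.Agent.R256.HL in
lemma adm_of {f : ℝ → ℝ} (h : Admissible f) : Adm f (deriv f) (deriv (deriv f)) :=
  ⟨fun x hx => (h.1 x hx).hasDerivAt, fun x hx => (h.2.1 x hx).hasDerivAt, h.2.2.1, h.2.2.2⟩

/-- There is exactly one modulus `k` in `(0,1)` with `2 E(k) = K(k)`; it satisfies `2k² > 1`, and
`1/(2k²-1)²` is the best constant in the inequality (where `∫ x f'²` is finite for every admissible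
`f`). The best constant is attained by a nonzero admissible function. -/
theorem result :
    (∃! k : ℝ, (0 < k ∧ k < 1) ∧ 2 * ellE k = ellK k) ∧
    ∀ k : ℝ, 0 < k → k < 1 → 2 * ellE k = ellK k →
      1 < 2 * k ^ 2 ∧
      (∀ f : ℝ → ℝ, Admissible f → IntegrableOn (fun x => x * deriv f x ^ 2) (Ioi 0)) ∧
      IsLeast {C : ℝ | IsConstant C} (1 / (2 * k ^ 2 - 1) ^ 2) ∧
      ∃ f : ℝ → ℝ, Admissible f ∧
        0 < (∫ x in Ioi 0, x * f x ^ 2) * (∫ x in Ioi 0, x * deriv (deriv f) x ^ 2) ∧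
        (∫ x in Ioi 0, x * deriv f x ^ 2) ^ 2 = 1 / (2 * k ^ 2 - 1) ^ 2 *
          (∫ x in Ioi 0, x * f x ^ 2) * ∫ x in Ioi 0, x * deriv (deriv f) x ^ 2 := by
  refine ⟨Pool.Agent.R256.HL.existsUnique_k, fun k h0 h1 hk => ?_⟩
  have hk2 : 1 < 2 * k ^ 2 := Pool.Agent.R256.HL.two_k_sq_gt h0.le h1 hk
  have hF2 : Pool.Agent.R256.HL.F k 2 0 = 0 := by
    rw [Pool.Agent.R256.HL.F_two_zero h0.le h1]
    exact sub_eq_zero.2 hk
  have hd1 : deriv (Pool.Agent.R256.HL.F k 0) = Pool.Agent.R256.HL.F k 1 :=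
    funext fun x => (Pool.Agent.R256.HL.F_hasDerivAt h0.le h1 0 x).deriv
  have hd2 : deriv (Pool.Agent.R256.HL.F k 1) = Pool.Agent.R256.HL.F k 2 :=
    funext fun x => (Pool.Agent.R256.HL.F_hasDerivAt h0.le h1 1 x).deriv
  have hadm := Pool.Agent.R256.HL.F_adm h0.le h1
  have hA : Admissible (Pool.Agent.R256.HL.F k 0) := by
    refine ⟨fun x hx => (hadm.h1 x hx).differentiableAt, fun x hx => ?_, hadm.i0, ?_⟩
    · rw [hd1]; exact (hadm.h2 x hx).differentiableAt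
    · rw [hd1, hd2]; exact hadm.i2
  obtain ⟨hpos, hsh⟩ := Pool.Agent.R256.HL.sharp h0.le h1 hF2 hk2
  have hle : ∀ f : ℝ → ℝ, Admissible f → (∫ x in Ioi 0, x * deriv f x ^ 2) ^ 2 ≤
      1 / (2 * k ^ 2 - 1) ^ 2 * (∫ x in Ioi 0, x * f x ^ 2) *
        ∫ x in Ioi 0, x * deriv (deriv f) x ^ 2 := fun f hf =>
    (adm_of hf).ineq h0.le h1 hF2 hk2
  refine ⟨hk2, fun f hf => (adm_of hf).i1, ⟨hle, ?_⟩, ?_⟩
  · intro C hC
    have h2 := hC _ hA
    rw [hd1, hd2, mul_assoc] at h2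
    have h3 := hsh.trans h2
    exact le_of_mul_le_mul_right h3 hpos
  · refine ⟨Pool.Agent.R256.HL.F k 0, hA, ?_, le_antisymm (hle _ hA) ?_⟩
    · rw [hd1, hd2]; exact hpos
    · rw [hd1, hd2, mul_assoc]; exact hsh

end Pool.Agent.Results.MP_9d0787_an.EllipticConstant
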